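import Mathlib

set_option autoImplicit false

namespace Pool.Agent.Results.MP_ee20a5_al.No

/-- `x` is the only rational tuple satisfying all equations `v i = 1`, `v i + v j = v k` that `x` satisfies. -/
def Rigid {n : ℕ} (x : Fin n → ℚ) : Prop :=
  ∀ y : Fin n → ℚ, (∀ i, x i = 1 → y i = 1) → (∀ i j k, x i + x j = x k → y i + y j = y k) → y = x

theorem result : ∃ (n : ℕ) (x : Fin (n + 1) → ℚ), 1 ≤ n ∧ Rigid x ∧ Monotone (fun i => |x i|) ∧
    ∃ i : Fin n, 1 ≤ |x i.castSucc| ∧ 2 * |x i.castSucc| < |x i.succ| := by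
  refine ⟨4, ![1, 3, 4, 5, 6], by norm_num, fun y h1 h2 => ?_, Fin.monotone_iff_le_succ.2 fun i => ?_,
    0, by simp, by simp; norm_num⟩
  · have a := h1 0 rfl
    have b := h2 0 1 2 (by simp; norm_num)
    have c := h2 0 2 3 (by simp; norm_num)
    have d := h2 0 3 4 (by simp; norm_num)
    have e := h2 1 1 4 (by simp; norm_num)
    ext i
    fin_cases i <;> simp <;> linarith
  · fin_cases i <;> simp <;> norm_num

end Pool.Agent.Results.MP_ee20a5_al.No
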